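import Mathlib

/-!
# Directed graphs with small independent sets and small transitive tournaments: definitions
-/

set_option autoImplicit false

namespace Pool.Agent.E8helper61.DL

open Finset Classical Matrix

/-- Vectors of even length over the field with two elements. -/
abbrev Vec (h : ℕ) : Type := Fin (2 * h) → ZMod 2

/-- The vectors orthogonal to themselves. -/
abbrev Ev (h : ℕ) : Type := {x : Vec h // x ⬝ᵥ x = 0}

/-- The number of `m`-tuples of pairwise orthogonal vectors, each orthogonal to itself. -/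
def S_CNT : Prop := ∀ h m : ℕ,
  Fintype.card {v : Fin m → Vec h // ∀ i j, v i ⬝ᵥ v j = 0} ≤ 2 ^ (m + h * m + h * (h + 1) / 2)

/-- At most `2 h + 1` vectors, orthogonal to themselves, have pairwise scalar products `1`. -/
def S_IND : Prop := ∀ (h : ℕ) (S : Finset (Vec h)), (∀ x ∈ S, x ⬝ᵥ x = 0) →
  (∀ x ∈ S, ∀ y ∈ S, x ≠ y → x ⬝ᵥ y = 1) → S.card ≤ 2 * h + 1

/-- At least half of the vectors are orthogonal to themselves. -/
def S_CARD : Prop := ∀ h : ℕ, 1 ≤ h → 2 ^ (2 * h - 1) ≤ Fintype.card (Ev h)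

/-- A random map and a random orientation. -/
def S_RND : Prop := ∀ (E : Type) [Fintype E] (orth : E → E → Prop),
  (∀ x y, orth x y → orth y x) → ∀ N m : ℕ,
  N ^ m * Fintype.card {v : Fin m → E // ∀ i j, orth (v i) (v j)} <
    Fintype.card E ^ m * 2 ^ (m * (m - 1) / 2) → (∀ x, orth x x) →
  ∃ (f : Fin N → E) (A : Fin N → Fin N → Prop), (∀ i j, A i j → ¬ A j i) ∧
    (∀ i j, i ≠ j → ((A i j ∨ A j i) ↔ orth (f i) (f j))) ∧
    ¬ ∃ g : Fin m → Fin N, ∀ a b, a < b → A (g a) (g b)

end Pool.Agent.E8helper61.DL
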