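import Pool.Agent.E8helper61.DL.Defs

/-!
# The number of tuples of pairwise orthogonal vectors
-/

set_option autoImplicit false

namespace Pool.Agent.E8helper61.DL

open Finset Classical Matrix Module

variable {h : ℕ}

lemma card_submodule (W : Submodule (ZMod 2) (Vec h)) :
    Fintype.card W = 2 ^ finrank (ZMod 2) W := by
  rw [Module.card_eq_pow_finrank (K := ZMod 2), ZMod.card]

/-- the orthogonal space -/
noncomputable def perp (W : Submodule (ZMod 2) (Vec h)) : Submodule (ZMod 2) (Vec h) :=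
  W.dualAnnihilator.comap (dotProductEquiv (ZMod 2) (Fin (2 * h))).toLinearMap

lemma mem_perp (W : Submodule (ZMod 2) (Vec h)) (x : Vec h) :
    x ∈ perp W ↔ ∀ w ∈ W, x ⬝ᵥ w = 0 := by
  rw [perp, Submodule.mem_comap, Submodule.mem_dualAnnihilator]
  rfl

lemma finrank_perp (W : Submodule (ZMod 2) (Vec h)) :
    finrank (ZMod 2) W + finrank (ZMod 2) (perp W) = 2 * h := by
  have h1 := Subspace.finrank_add_finrank_dualAnnihilator_eq W
  have h2 : finrank (ZMod 2) (perp W) = finrank (ZMod 2) W.dualAnnihilator := by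
    have e := (dotProductEquiv (ZMod 2) (Fin (2 * h)))
    rw [perp]
    exact LinearEquiv.finrank_eq
      ((dotProductEquiv (ZMod 2) (Fin (2 * h))).ofSubmodule' W.dualAnnihilator)
  rw [h2, h1]
  simp

/-- totally isotropic -/
def Iso (W : Submodule (ZMod 2) (Vec h)) : Prop := ∀ x ∈ W, ∀ y ∈ W, x ⬝ᵥ y = 0

lemma Iso.finrank_le {W : Submodule (ZMod 2) (Vec h)} (hW : Iso W) :
    finrank (ZMod 2) W ≤ h := by
  have h1 : W ≤ perp W := fun x hx => (mem_perp W x).2 fun w hw => hW x hx w hw
  have h2 := Submodule.finrank_mono h1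
  have h3 := finrank_perp W
  omega

lemma Iso.sup {W : Submodule (ZMod 2) (Vec h)} (hW : Iso W) {x : Vec h}
    (hx : ∀ w ∈ W, x ⬝ᵥ w = 0) (hxx : x ⬝ᵥ x = 0) : Iso (W ⊔ Submodule.span (ZMod 2) {x}) := by
  intro a ha b hb
  obtain ⟨a1, ha1, a2, ha2, rfl⟩ := Submodule.mem_sup.1 ha
  obtain ⟨b1, hb1, b2, hb2, rfl⟩ := Submodule.mem_sup.1 hb
  obtain ⟨c, rfl⟩ := Submodule.mem_span_singleton.1 ha2
  obtain ⟨d, rfl⟩ := Submodule.mem_span_singleton.1 hb2
  simp only [add_dotProduct, dotProduct_add, smul_dotProduct, dotProduct_smul, hW a1 ha1 b1 hb1,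
    hx b1 hb1, hxx, dotProduct_comm a1 x, hx a1 ha1, smul_zero, add_zero]

/-- tuples of pairwise orthogonal vectors, orthogonal to `W` -/
noncomputable def T (h j : ℕ) (W : Submodule (ZMod 2) (Vec h)) : Finset (Fin j → Vec h) :=
  univ.filter fun v => (∀ i, ∀ w ∈ W, v i ⬝ᵥ w = 0) ∧ ∀ i k, v i ⬝ᵥ v k = 0

/-- isotropic vectors orthogonal to `W` -/
noncomputable def O (W : Submodule (ZMod 2) (Vec h)) : Finset (Vec h) :=
  univ.filter fun x => (∀ w ∈ W, x ⬝ᵥ w = 0) ∧ x ⬝ᵥ x = 0

lemma T_succ (j : ℕ) (W : Submodule (ZMod 2) (Vec h)) :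
    (T h (j + 1) W).card ≤ ∑ x ∈ O W, (T h j (W ⊔ Submodule.span (ZMod 2) {x})).card := by
  have hmaps : ∀ v ∈ T h (j + 1) W, v 0 ∈ O W := by
    intro v hv
    rw [T, mem_filter] at hv
    exact mem_filter.2 ⟨mem_univ _, hv.2.1 0, hv.2.2 0 0⟩
  rw [Finset.card_eq_sum_card_fiberwise hmaps]
  refine Finset.sum_le_sum fun x _ => ?_
  refine Finset.card_le_card_of_injOn (fun v => Fin.tail v) ?_ ?_
  · intro v hv
    simp only [coe_filter, Set.mem_ofPred_eq] at hv
    obtain ⟨hv, hx⟩ := hv
    rw [T, mem_filter] at hv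
    rw [mem_coe, T, mem_filter]
    refine ⟨mem_univ _, fun i w hw => ?_, fun i k => hv.2.2 i.succ k.succ⟩
    obtain ⟨a, ha, b, hb, rfl⟩ := Submodule.mem_sup.1 hw
    obtain ⟨c, rfl⟩ := Submodule.mem_span_singleton.1 hb
    have h1 : Fin.tail v i ⬝ᵥ a = 0 := hv.2.1 i.succ a ha
    have h2 : Fin.tail v i ⬝ᵥ x = 0 := by rw [← hx]; exact hv.2.2 i.succ 0
    rw [dotProduct_add, dotProduct_smul, h1, h2, smul_zero, add_zero]
  · intro v hv w hw hvw
    simp only [coe_filter, Set.mem_ofPred_eq] at hv hw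
    have h1 := Fin.cons_self_tail v
    have h2 := Fin.cons_self_tail w
    rw [← h1, ← h2, hv.2, hw.2]
    have : Fin.tail v = Fin.tail w := hvw
    rw [this]

lemma T_bound (j : ℕ) : ∀ W : Submodule (ZMod 2) (Vec h), Iso W →
    (T h j W).card ≤ 2 ^ (j + h * j + (h - finrank (ZMod 2) W + 1).choose 2) := by
  induction j with
  | zero =>
    intro W _
    calc (T h 0 W).card ≤ (univ : Finset (Fin 0 → Vec h)).card := card_le_univ _
      _ = 1 := by simp
      _ ≤ _ := Nat.one_le_two_pow
  | succ j ih =>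
    intro W hW
    set ρ := finrank (ZMod 2) W with hρ
    have hρh : ρ ≤ h := hW.finrank_le
    refine (T_succ j W).trans ?_
    rw [← Finset.sum_filter_add_sum_filter_not (O W) (fun x => x ∈ W)]
    have h1 : ∑ x ∈ (O W).filter (fun x => x ∈ W), (T h j (W ⊔ Submodule.span (ZMod 2) {x})).card
        ≤ 2 ^ ρ * 2 ^ (j + h * j + (h - ρ + 1).choose 2) := by
      have hc : ((O W).filter (fun x => x ∈ W)).card ≤ 2 ^ ρ := by
        rw [hρ, ← card_submodule W, ← Fintype.card_coe]
        exact Fintype.card_le_of_injective (fun x => (⟨x.1, (mem_filter.1 x.2).2⟩ : W))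
          (fun a b hab => Subtype.ext (congrArg (fun y : W => (y : Vec h)) hab))
      calc ∑ x ∈ (O W).filter (fun x => x ∈ W), (T h j (W ⊔ Submodule.span (ZMod 2) {x})).card
          ≤ ∑ x ∈ (O W).filter (fun x => x ∈ W), 2 ^ (j + h * j + (h - ρ + 1).choose 2) := by
            refine Finset.sum_le_sum fun x hx => ?_
            have hxW := (mem_filter.1 hx).2
            have : W ⊔ Submodule.span (ZMod 2) {x} = W := by
              rw [sup_eq_left, Submodule.span_singleton_le_iff_mem]
              exact hxW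
            rw [this]
            exact ih W hW
        _ = ((O W).filter (fun x => x ∈ W)).card * 2 ^ (j + h * j + (h - ρ + 1).choose 2) := by
            rw [sum_const, smul_eq_mul]
        _ ≤ _ := Nat.mul_le_mul_right _ hc
    have h2 : ∑ x ∈ (O W).filter (fun x => ¬ x ∈ W), (T h j (W ⊔ Submodule.span (ZMod 2) {x})).card
        ≤ 2 ^ (j + h * j + (h - ρ + 1).choose 2 + h) := by
      rcases Finset.eq_empty_or_nonempty ((O W).filter (fun x => ¬ x ∈ W)) with he | ⟨x0, hx0⟩
      · rw [he]; simp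
      have key : ∀ x ∈ (O W).filter (fun x => ¬ x ∈ W),
          Iso (W ⊔ Submodule.span (ZMod 2) {x}) ∧
            finrank (ZMod 2) ↥(W ⊔ Submodule.span (ZMod 2) {x}) = ρ + 1 := by
        intro x hx
        rw [mem_filter, O, mem_filter] at hx
        refine ⟨hW.sup hx.1.2.1 hx.1.2.2, ?_⟩
        have hx0 : x ≠ 0 := fun h0 => hx.2 (by rw [h0]; exact W.zero_mem)
        have hdis : W ⊓ Submodule.span (ZMod 2) {x} = ⊥ := by
          rw [Submodule.eq_bot_iff]
          rintro y ⟨hy1, hy2⟩
          obtain ⟨c, rfl⟩ := Submodule.mem_span_singleton.1 hy2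
          by_cases hc : c = 0
          · rw [hc, zero_smul]
          · exact absurd ((W.smul_mem_iff hc).1 hy1) hx.2
        have h3 := Submodule.finrank_sup_add_finrank_inf_eq W (Submodule.span (ZMod 2) {x})
        rw [hdis, finrank_bot, finrank_span_singleton hx0, add_zero] at h3
        rw [h3]
      have hlt : ρ + 1 ≤ h := by
        have := (key x0 hx0).1.finrank_le
        rw [(key x0 hx0).2] at this
        exact this
      have hc : ((O W).filter (fun x => ¬ x ∈ W)).card ≤ 2 ^ (2 * h - ρ) := by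
        have h4 : finrank (ZMod 2) (perp W) = 2 * h - ρ := by
          have := finrank_perp W
          omega
        rw [← h4, ← card_submodule (perp W), ← Fintype.card_coe]
        refine Fintype.card_le_of_injective (fun x => (⟨x.1, ?_⟩ : perp W))
          (fun a b hab => Subtype.ext (congrArg (fun y : perp W => (y : Vec h)) hab))
        have hxO : (x : Vec h) ∈ O W := (mem_filter.1 x.2).1
        exact (mem_perp W x.1).2 (mem_filter.1 hxO).2.1
      calc ∑ x ∈ (O W).filter (fun x => ¬ x ∈ W), (T h j (W ⊔ Submodule.span (ZMod 2) {x})).card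
          ≤ ∑ x ∈ (O W).filter (fun x => ¬ x ∈ W), 2 ^ (j + h * j + (h - (ρ + 1) + 1).choose 2) := by
            refine Finset.sum_le_sum fun x hx => ?_
            have := ih _ (key x hx).1
            rw [(key x hx).2] at this
            exact this
        _ = ((O W).filter (fun x => ¬ x ∈ W)).card * 2 ^ (j + h * j + (h - (ρ + 1) + 1).choose 2) := by
            rw [sum_const, smul_eq_mul]
        _ ≤ 2 ^ (2 * h - ρ) * 2 ^ (j + h * j + (h - (ρ + 1) + 1).choose 2) := Nat.mul_le_mul_right _ hc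
        _ = 2 ^ (2 * h - ρ + (j + h * j + (h - (ρ + 1) + 1).choose 2)) := by rw [← pow_add]
        _ = 2 ^ (j + h * j + (h - ρ + 1).choose 2 + h) := by
            congr 1
            obtain ⟨u, hu⟩ := Nat.exists_eq_add_of_le hlt
            have e1 : h - (ρ + 1) = u := by omega
            have e2 : h - ρ = u + 1 := by omega
            have e3 : 2 * h - ρ = h + (u + 1) := by omega
            rw [e1, e2, e3, Nat.choose_succ_succ' (u + 1) 1, Nat.choose_one_right]
            ring
    calc _ ≤ 2 ^ ρ * 2 ^ (j + h * j + (h - ρ + 1).choose 2)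
          + 2 ^ (j + h * j + (h - ρ + 1).choose 2 + h) := Nat.add_le_add h1 h2
      _ ≤ 2 ^ (j + h * j + (h - ρ + 1).choose 2 + h) + 2 ^ (j + h * j + (h - ρ + 1).choose 2 + h) := by
          refine Nat.add_le_add_right ?_ _
          rw [← pow_add]
          exact Nat.pow_le_pow_right (by norm_num) (by omega)
      _ = 2 ^ (j + h * j + (h - ρ + 1).choose 2 + h + 1) := by rw [pow_succ]; ring
      _ = 2 ^ (j + 1 + h * (j + 1) + (h - ρ + 1).choose 2) := by
          congr 1
          ring

theorem t_CNT : S_CNT := by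
  intro h m
  have h1 := T_bound (h := h) m ⊥ (by
    intro x hx y _
    rw [Submodule.mem_bot] at hx
    rw [hx, zero_dotProduct])
  rw [finrank_bot, Nat.sub_zero, Nat.choose_two_right, Nat.add_sub_cancel] at h1
  rw [Fintype.card_subtype]
  refine le_trans (card_le_card fun v hv => ?_) (h1.trans_eq ?_)
  · rw [mem_filter] at hv
    rw [T, mem_filter]
    refine ⟨mem_univ _, fun i w hw => ?_, hv.2⟩
    rw [Submodule.mem_bot] at hw
    rw [hw, dotProduct_zero]
  · rw [mul_comm (h + 1) h]

end Pool.Agent.E8helper61.DL
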