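import Pool.Agent.E8helper61.DL.Cnt

/-!
# The construction
-/

set_option autoImplicit false

namespace Pool.Agent.E8helper61.DL

open Finset Classical Matrix

lemma card_inst {α : Type} (i1 i2 : Fintype α) : @Fintype.card α i1 = @Fintype.card α i2 := by
  rw [Subsingleton.elim i1 i2]

/-- The directed graph. -/
theorem construct (hI : S_IND) (hC : S_CARD) (hR : S_RND) (h m N : ℕ) (hh : 1 ≤ h)
    (hN : N ^ m * 2 ^ (m + h * m + h * (h + 1) / 2) < (2 ^ (2 * h - 1)) ^ m * 2 ^ (m * (m - 1) / 2)) :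
    ∃ A : Fin N → Fin N → Prop, (∀ i j, A i j → ¬ A j i) ∧
      (¬ ∃ S : Finset (Fin N), S.card = 2 * h + 2 ∧ ∀ u ∈ S, ∀ v ∈ S, ¬ A u v) ∧
      ¬ ∃ g : Fin m → Fin N, ∀ a b, a < b → A (g a) (g b) := by
  have hcnt : Fintype.card {v : Fin m → Ev h // ∀ i j, (v i).1 ⬝ᵥ (v j).1 = 0}
      ≤ 2 ^ (m + h * m + h * (h + 1) / 2) := by
    refine le_trans ?_ (t_CNT h m)
    refine Fintype.card_le_of_injective
      (fun v => ⟨fun i => (v.1 i).1, v.2⟩) fun a b hab => ?_
    apply Subtype.ext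
    funext i
    apply Subtype.ext
    have h1 := congrArg Subtype.val hab
    exact congrFun h1 i
  obtain ⟨f, A, hA1, hA2, hA3⟩ := hR (Ev h) (fun x y => x.1 ⬝ᵥ y.1 = 0)
    (fun x y hxy => by rw [dotProduct_comm]; exact hxy) N m (by
      refine lt_of_le_of_lt (Nat.mul_le_mul_left _ ?_) (lt_of_lt_of_le hN
        (Nat.mul_le_mul_right _ (Nat.pow_le_pow_left (hC h hh) m)))
      exact (card_inst _ _).le.trans hcnt) (fun x => x.2)
  refine ⟨A, hA1, ?_, hA3⟩
  rintro ⟨S, hS, hind⟩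
  have hone : ∀ i ∈ S, ∀ j ∈ S, i ≠ j → (f i).1 ⬝ᵥ (f j).1 = 1 := by
    intro i hi j hj hij
    have h1 : ¬ (f i).1 ⬝ᵥ (f j).1 = 0 := by
      intro h0
      rcases (hA2 i j hij).2 h0 with h | h
      · exact hind i hi j hj h
      · exact hind j hj i hi h
    have h2 : ∀ c : ZMod 2, ¬ c = 0 → c = 1 := by decide
    exact h2 _ h1
  have hinj : Set.InjOn (fun i => (f i).1) (S : Set (Fin N)) := by
    intro i hi j hj hij
    by_contra hne
    have h1 := hone i hi j hj hne
    have h2 : (f i).1 = (f j).1 := hij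
    rw [h2, (f j).2] at h1
    exact absurd h1 (by decide)
  have h1 := hI h (S.image fun i => (f i).1) (by
      intro x hx
      obtain ⟨i, _, rfl⟩ := mem_image.1 hx
      exact (f i).2) (by
      intro x hx y hy hxy
      obtain ⟨i, hi, rfl⟩ := mem_image.1 hx
      obtain ⟨j, hj, rfl⟩ := mem_image.1 hy
      exact hone i hi j hj (fun hij => hxy (by rw [hij])))
  rw [card_image_of_injOn hinj, hS] at h1
  omega

end Pool.Agent.E8helper61.DL
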